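import Mathlib

/-!
Every monotone modal logic (normal or not) with the Lyndon interpolation property has the Lyndon
positivity property.
-/

set_option autoImplicit false

namespace Pool.Agent.Results.MP_55f31a_lc.LyndonPositivity

/-- Modal formulas in negation normal form: `pos p` is the literal `p`, `neg p` the literal
`¬p`. -/
inductive Fml : Type
  | pos (p : ℕ) : Fml
  | neg (p : ℕ) : Fml
  | bot : Fml
  | top : Fml
  | and (φ ψ : Fml) : Fml
  | or (φ ψ : Fml) : Fml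
  | dia (φ : Fml) : Fml
  | box (φ : Fml) : Fml

namespace Fml

/-- The negation `¬φ`, defined by the De Morgan and modal duality laws. -/
def dual : Fml → Fml
  | pos p => neg p
  | neg p => pos p
  | bot => top
  | top => bot
  | and φ ψ => or φ.dual ψ.dual
  | or φ ψ => and φ.dual ψ.dual
  | dia φ => box φ.dual
  | box φ => dia φ.dual

/-- `φ → ψ`, that is, `¬φ ∨ ψ`. -/
def imp (φ ψ : Fml) : Fml := or φ.dual ψ

/-- `φ ↔ ψ`. -/
def iff (φ ψ : Fml) : Fml := and (imp φ ψ) (imp ψ φ)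

/-- Uniform substitution of formulas for variables. -/
def subst (σ : ℕ → Fml) : Fml → Fml
  | pos p => σ p
  | neg p => (σ p).dual
  | bot => bot
  | top => top
  | and φ ψ => and (φ.subst σ) (ψ.subst σ)
  | or φ ψ => or (φ.subst σ) (ψ.subst σ)
  | dia φ => dia (φ.subst σ)
  | box φ => box (φ.subst σ)

/-- The literals which occur in a formula; `(p, true)` stands for `p` and `(p, false)` for `¬p`. -/
def lits : Fml → Set (ℕ × Bool)
  | pos p => {(p, true)}
  | neg p => {(p, false)}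
  | bot => ∅
  | top => ∅
  | and φ ψ => φ.lits ∪ ψ.lits
  | or φ ψ => φ.lits ∪ ψ.lits
  | dia φ => φ.lits
  | box φ => φ.lits

/-- The variables which occur in a formula. -/
def vars (φ : Fml) : Set ℕ := {p | (p, true) ∈ φ.lits ∨ (p, false) ∈ φ.lits}

/-- A formula is positive if it contains no negated variable. -/
def Positive (φ : Fml) : Prop := ∀ p, (p, false) ∉ φ.lits

/-- A classical valuation of all formulas which respects the Boolean connectives and negation (the
formulas beginning with a modal operator are treated as atoms). -/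
structure IsVal (v : Fml → Prop) : Prop where
  bot : ¬ v bot
  top : v top
  and : ∀ φ ψ, v (and φ ψ) ↔ v φ ∧ v ψ
  or : ∀ φ ψ, v (or φ ψ) ↔ v φ ∨ v ψ
  dual : ∀ φ : Fml, v φ.dual ↔ ¬ v φ

/-- Classical tautologies. -/
def Taut (φ : Fml) : Prop := ∀ v, IsVal v → v φ

end Fml

open Fml

/-- Monotone modal logics: sets of formulas which contain all classical tautologies,
`□p ↔ ¬◇¬p` and `◇p → ◇(p ∨ q)`, and are closed under modus ponens, uniform substitution and the
rule from `φ ↔ ψ` infer `◇φ ↔ ◇ψ`. -/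
structure MonotoneModalLogic (Λ : Set Fml) : Prop where
  taut : ∀ φ, Taut φ → φ ∈ Λ
  duality : Fml.iff (box (pos 0)) (dia (pos 0).dual).dual ∈ Λ
  mono : imp (dia (pos 0)) (dia (or (pos 0) (pos 1))) ∈ Λ
  mp : ∀ φ ψ, φ ∈ Λ → imp φ ψ ∈ Λ → ψ ∈ Λ
  subst : ∀ φ σ, φ ∈ Λ → φ.subst σ ∈ Λ
  congr : ∀ φ ψ, Fml.iff φ ψ ∈ Λ → Fml.iff (dia φ) (dia ψ) ∈ Λ

/-- `φ` is monotone in `Λ`: `φ(p⃗) → φ(p⃗ ∨ q⃗)` is in `Λ` for fresh variables `q⃗`. -/
def MonotoneIn (Λ : Set Fml) (φ : Fml) : Prop :=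
  ∀ q : ℕ → ℕ, Function.Injective q → (∀ p, q p ∉ φ.vars) →
    imp φ (φ.subst fun p => or (pos p) (pos (q p))) ∈ Λ

/-- The Lyndon positivity property: every formula monotone in `Λ` is `Λ`-equivalent to a positive
formula. -/
def LPP (Λ : Set Fml) : Prop :=
  ∀ φ, MonotoneIn Λ φ → ∃ ψ, ψ.Positive ∧ Fml.iff φ ψ ∈ Λ

/-- The Lyndon interpolation property. -/
def LIP (Λ : Set Fml) : Prop :=
  ∀ φ ψ, imp φ ψ ∈ Λ → ∃ θ : Fml, θ.lits ⊆ φ.lits ∩ ψ.lits ∧ imp φ θ ∈ Λ ∧ imp θ ψ ∈ Λ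

namespace Fml

theorem IsVal.imp {v : Fml → Prop} (h : IsVal v) (φ ψ : Fml) : v (imp φ ψ) ↔ (v φ → v ψ) := by
  rw [Fml.imp, h.or, h.dual]
  tauto

theorem IsVal.iff {v : Fml → Prop} (h : IsVal v) (φ ψ : Fml) : v (iff φ ψ) ↔ (v φ ↔ v ψ) := by
  rw [Fml.iff, h.and, h.imp, h.imp]
  tauto

theorem dual_dual : ∀ φ : Fml, φ.dual.dual = φ
  | pos _ => rfl
  | neg _ => rfl
  | bot => rfl
  | top => rfl
  | and φ ψ => by simp only [dual, dual_dual φ, dual_dual ψ]
  | or φ ψ => by simp only [dual, dual_dual φ, dual_dual ψ]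
  | dia φ => by simp only [dual, dual_dual φ]
  | box φ => by simp only [dual, dual_dual φ]

theorem subst_dual (σ : ℕ → Fml) : ∀ φ : Fml, φ.dual.subst σ = (φ.subst σ).dual
  | pos _ => rfl
  | neg p => by simp only [dual, subst, dual_dual]
  | bot => rfl
  | top => rfl
  | and φ ψ => by simp only [dual, subst, subst_dual σ φ, subst_dual σ ψ]
  | or φ ψ => by simp only [dual, subst, subst_dual σ φ, subst_dual σ ψ]
  | dia φ => by simp only [dual, subst, subst_dual σ φ]
  | box φ => by simp only [dual, subst, subst_dual σ φ]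

theorem subst_imp (σ : ℕ → Fml) (φ ψ : Fml) :
    (imp φ ψ).subst σ = imp (φ.subst σ) (ψ.subst σ) := by
  simp only [imp, subst, subst_dual]

theorem subst_id {σ : ℕ → Fml} : ∀ φ : Fml, (∀ p ∈ φ.vars, σ p = pos p) → φ.subst σ = φ
  | pos p, h => h p (Or.inl rfl)
  | neg p, h => by
      have := h p (Or.inr rfl)
      simp only [subst, this, dual]
  | bot, _ => rfl
  | top, _ => rfl
  | and φ ψ, h => by
      simp only [subst]
      rw [subst_id φ (fun p hp => h p (hp.imp Or.inl Or.inl)),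
        subst_id ψ (fun p hp => h p (hp.imp Or.inr Or.inr))]
  | or φ ψ, h => by
      simp only [subst]
      rw [subst_id φ (fun p hp => h p (hp.imp Or.inl Or.inl)),
        subst_id ψ (fun p hp => h p (hp.imp Or.inr Or.inr))]
  | dia φ, h => by simp only [subst, subst_id φ h]
  | box φ, h => by simp only [subst, subst_id φ h]

theorem exists_bound : ∀ φ : Fml, ∃ N, ∀ p ∈ φ.vars, p < N
  | pos p => ⟨p + 1, by rintro q (h | h) <;> simp [lits] at h <;> omega⟩
  | neg p => ⟨p + 1, by rintro q (h | h) <;> simp [lits] at h <;> omega⟩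
  | bot => ⟨0, by rintro q (h | h) <;> simp [lits] at h⟩
  | top => ⟨0, by rintro q (h | h) <;> simp [lits] at h⟩
  | and φ ψ => by
      obtain ⟨N, hN⟩ := exists_bound φ
      obtain ⟨M, hM⟩ := exists_bound ψ
      refine ⟨max N M, ?_⟩
      rintro q ((h | h) | (h | h))
      · exact lt_max_of_lt_left (hN q (Or.inl h))
      · exact lt_max_of_lt_right (hM q (Or.inl h))
      · exact lt_max_of_lt_left (hN q (Or.inr h))
      · exact lt_max_of_lt_right (hM q (Or.inr h))
  | or φ ψ => by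
      obtain ⟨N, hN⟩ := exists_bound φ
      obtain ⟨M, hM⟩ := exists_bound ψ
      refine ⟨max N M, ?_⟩
      rintro q ((h | h) | (h | h))
      · exact lt_max_of_lt_left (hN q (Or.inl h))
      · exact lt_max_of_lt_right (hM q (Or.inl h))
      · exact lt_max_of_lt_left (hN q (Or.inr h))
      · exact lt_max_of_lt_right (hM q (Or.inr h))
  | dia φ => exists_bound φ
  | box φ => exists_bound φ

/-- Replace every literal `p` by `p ∨ q` and every literal `¬p` by `¬q`, where `q = p + N`. -/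
def tau (N : ℕ) : Fml → Fml
  | pos p => or (pos p) (pos (p + N))
  | neg p => neg (p + N)
  | bot => bot
  | top => top
  | and φ ψ => and (φ.tau N) (ψ.tau N)
  | or φ ψ => or (φ.tau N) (ψ.tau N)
  | dia φ => dia (φ.tau N)
  | box φ => box (φ.tau N)

theorem tau_lits {N p : ℕ} : ∀ {φ : Fml}, (p, false) ∈ (φ.tau N).lits → N ≤ p
  | pos q, h => by simp [tau, lits] at h
  | neg q, h => by simp [tau, lits] at h; omega
  | bot, h => by simp [tau, lits] at h
  | top, h => by simp [tau, lits] at h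
  | and φ ψ, h => h.elim tau_lits tau_lits
  | or φ ψ, h => h.elim tau_lits tau_lits
  | dia φ, h => tau_lits (φ := φ) h
  | box φ, h => tau_lits (φ := φ) h

end Fml

namespace MonotoneModalLogic

variable {Λ : Set Fml}

theorem rule1 (h : MonotoneModalLogic Λ) {φ χ : Fml} (h1 : ∀ v, IsVal v → v φ → v χ)
    (hφ : φ ∈ Λ) : χ ∈ Λ :=
  h.mp _ _ hφ (h.taut _ fun v hv => (hv.imp _ _).mpr (h1 v hv))

theorem rule2 (h : MonotoneModalLogic Λ) {φ ψ χ : Fml} (h1 : ∀ v, IsVal v → v φ → v ψ → v χ)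
    (hφ : φ ∈ Λ) (hψ : ψ ∈ Λ) : χ ∈ Λ :=
  h.mp _ _ hψ (h.rule1 (χ := imp ψ χ) (fun v hv h2 => (hv.imp _ _).mpr (h1 v hv h2)) hφ)

theorem refl (h : MonotoneModalLogic Λ) (φ : Fml) : imp φ φ ∈ Λ :=
  h.taut _ fun _ hv => (hv.imp _ _).mpr id

theorem trans (h : MonotoneModalLogic Λ) {φ ψ χ : Fml} (h1 : imp φ ψ ∈ Λ) (h2 : imp ψ χ ∈ Λ) :
    imp φ χ ∈ Λ :=
  h.rule2 (fun v hv h3 h4 => by
    rw [hv.imp] at h3 h4 ⊢
    exact fun h5 => h4 (h3 h5)) h1 h2

theorem and_mono (h : MonotoneModalLogic Λ) {φ ψ φ' ψ' : Fml} (h1 : imp φ φ' ∈ Λ)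
    (h2 : imp ψ ψ' ∈ Λ) : imp (and φ ψ) (and φ' ψ') ∈ Λ :=
  h.rule2 (fun v hv h3 h4 => by
    rw [hv.imp] at h3 h4 ⊢
    rw [hv.and, hv.and]
    exact And.imp h3 h4) h1 h2

theorem or_mono (h : MonotoneModalLogic Λ) {φ ψ φ' ψ' : Fml} (h1 : imp φ φ' ∈ Λ)
    (h2 : imp ψ ψ' ∈ Λ) : imp (or φ ψ) (or φ' ψ') ∈ Λ :=
  h.rule2 (fun v hv h3 h4 => by
    rw [hv.imp] at h3 h4 ⊢
    rw [hv.or, hv.or]
    exact Or.imp h3 h4) h1 h2

theorem dia_mono (h : MonotoneModalLogic Λ) {α β : Fml} (h1 : imp α β ∈ Λ) :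
    imp (dia α) (dia β) ∈ Λ := by
  have e1 : Fml.iff (or α β) β ∈ Λ := h.rule1 (fun v hv h2 => by
    rw [hv.imp] at h2
    rw [hv.iff, hv.or]
    tauto) h1
  have e2 := h.congr _ _ e1
  have e3 : imp (dia α) (dia (or α β)) ∈ Λ :=
    h.subst _ (fun p => if p = 0 then α else β) h.mono
  exact h.rule2 (fun v hv h3 h4 => by
    rw [hv.iff] at h3
    rw [hv.imp] at h4 ⊢
    exact fun h5 => h3.mp (h4 h5)) e2 e3

theorem box_mono (h : MonotoneModalLogic Λ) {α β : Fml} (h1 : imp α β ∈ Λ) :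
    imp (box α) (box β) ∈ Λ := by
  have e1 : imp β.dual α.dual ∈ Λ := h.rule1 (fun v hv h2 => by
    rw [hv.imp] at h2 ⊢
    rw [hv.dual, hv.dual]
    tauto) h1
  have e2 := h.dia_mono e1
  exact h.rule1 (fun v hv h3 => by
    rw [hv.imp] at h3 ⊢
    have e3 : v (dia β.dual) ↔ ¬ v (box β) := hv.dual (box β)
    have e4 : v (dia α.dual) ↔ ¬ v (box α) := hv.dual (box α)
    tauto) e2

theorem imp_tau (h : MonotoneModalLogic Λ) (N : ℕ) :
    ∀ φ : Fml, imp (φ.subst fun p => or (pos p) (pos (p + N))) (φ.tau N) ∈ Λ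
  | .pos _ => h.refl _
  | .neg p => h.taut _ fun v hv => by
      show v (imp (and (neg p) (neg (p + N))) (neg (p + N)))
      rw [hv.imp, hv.and]
      exact fun h => h.2
  | .bot => h.refl _
  | .top => h.refl _
  | .and φ ψ => h.and_mono (h.imp_tau N φ) (h.imp_tau N ψ)
  | .or φ ψ => h.or_mono (h.imp_tau N φ) (h.imp_tau N ψ)
  | .dia φ => h.dia_mono (h.imp_tau N φ)
  | .box φ => h.box_mono (h.imp_tau N φ)

theorem tau_imp (h : MonotoneModalLogic Λ) (N : ℕ) :
    ∀ φ : Fml, (∀ p ∈ φ.vars, p < N) →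
      imp ((φ.tau N).subst fun x => pos (if x < N then x else x - N)) φ ∈ Λ
  | .pos p, hp => h.taut _ fun v hv => by
      have hpN := hp p (Or.inl rfl)
      simp only [tau, Fml.subst, if_pos hpN, if_neg (show ¬ p + N < N by omega),
        Nat.add_sub_cancel]
      rw [hv.imp, hv.or]
      exact fun h => h.elim id id
  | .neg p, _ => by
      have e : ((neg p).tau N).subst (fun x => pos (if x < N then x else x - N)) = neg p := by
        simp only [tau, Fml.subst, if_neg (show ¬ p + N < N by omega), Nat.add_sub_cancel, dual]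
      rw [e]
      exact h.refl _
  | .bot, _ => h.refl _
  | .top, _ => h.refl _
  | .and φ ψ, hp => h.and_mono (h.tau_imp N φ (fun p hp' => hp p (hp'.imp Or.inl Or.inl)))
      (h.tau_imp N ψ (fun p hp' => hp p (hp'.imp Or.inr Or.inr)))
  | .or φ ψ, hp => h.or_mono (h.tau_imp N φ (fun p hp' => hp p (hp'.imp Or.inl Or.inl)))
      (h.tau_imp N ψ (fun p hp' => hp p (hp'.imp Or.inr Or.inr)))
  | .dia φ, hp => h.dia_mono (h.tau_imp N φ hp)
  | .box φ, hp => h.box_mono (h.tau_imp N φ hp)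

end MonotoneModalLogic

/-- **Theorem.** Every monotone modal logic with the Lyndon interpolation property has the Lyndon
positivity property. -/
theorem result (Λ : Set Fml) (h : MonotoneModalLogic Λ) (hLIP : LIP Λ) : LPP Λ := by
  intro φ hφ
  obtain ⟨N, hN⟩ := exists_bound φ
  have h1 : imp φ (φ.subst fun p => or (pos p) (pos (p + N))) ∈ Λ :=
    hφ (fun p => p + N) (fun a b hab => by simpa using hab)
      (fun p hp => absurd (hN _ hp) (by omega))
  have h2 : imp φ (φ.tau N) ∈ Λ := h.trans h1 (h.imp_tau N φ)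
  obtain ⟨θ, hθ, h3, h4⟩ := hLIP _ _ h2
  have hvars : ∀ p ∈ θ.vars, p < N := by
    rintro p (hp | hp)
    · exact hN p (Or.inl (hθ hp).1)
    · exact hN p (Or.inr (hθ hp).1)
  refine ⟨θ, ?_, ?_⟩
  · intro p hp
    have e1 := hvars p (Or.inr hp)
    have e2 := tau_lits (hθ hp).2
    omega
  · have h5 := h.subst _ (fun x => pos (if x < N then x else x - N)) h4
    rw [subst_imp, subst_id θ (fun p hp => by rw [if_pos (hvars p hp)])] at h5
    have h6 : imp θ φ ∈ Λ := h.trans h5 (h.tau_imp N φ hN)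
    exact h.rule2 (fun v hv e1 e2 => by
      rw [hv.imp] at e1 e2
      rw [hv.iff]
      exact ⟨e1, e2⟩) h3 h6

end Pool.Agent.Results.MP_55f31a_lc.LyndonPositivity
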